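import Mathlib
import Pool.Agent.Y928.PL.Finite
import Pool.Agent.TH957.WM.Fin
import Pool.Agent.TH957.ZM.Fin

/-!
# The digits of the odd zeta values in windows

The linear complexity of the first `L` digits of a number `x` in base `b` is the least order of a linear recurrence
over `ℚ` which they satisfy; `x` is rational if and only if it is bounded for `L → ∞`. Let `s ≥ 3` be odd and let
`T` be the set of the odd `j` with `s + 2 ≤ j < 21 s / 4`. Here it is shown that the numbers `ζ(j)`, `j ∈ T`, have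
large linear complexity together: jointly (one recurrence for all the digit sequences in one base, also after some
changes of digits), and separately, each number in a base of its own, and for all representations by bounded
integer digits, with the exponent `min (64 s) 1038 + 1`, which is bounded for `s → ∞`. The same is shown for the four
numbers `ζ(7), ζ(9), ζ(11), ζ(13)`.

The measures of irrationality are those of the starting files, see
`Pool/Agent/Results/MP_c2395a_nt/WindowsMeasure.lean` and `MeasureZeta7To13.lean`; the treatment of digit sequences is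
in `Pool/Agent/Y928/`.
-/

set_option autoImplicit false

namespace Pool.Agent.Results.MP_c2395a_nt.DigitsInWindows

open Finset

/-- the `i`-th digit of `x` after the point in base `b` -/
noncomputable def digit (b : ℕ) (x : ℝ) (i : ℕ) : ℤ := ⌊x * (b : ℝ) ^ i⌋ % (b : ℤ)

/-- The terms `s_1, …, s_L` satisfy the linear recurrence
`s_(i+m) = c_0 s_i + … + c_(m-1) s_(i+m-1)` for `1 ≤ i ≤ L - m`. -/
def Recurrence (s : ℕ → ℤ) (c : ℕ → ℚ) (L m : ℕ) : Prop :=
  ∀ i : ℕ, 1 ≤ i → i + m ≤ L → (s (i + m) : ℚ) = ∑ j ∈ range m, c j * (s (i + j) : ℚ)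

/-- the linear complexity of `s_1, …, s_L` -/
noncomputable def complexity (s : ℕ → ℤ) (L : ℕ) : ℕ :=
  sInf {m | ∃ c : ℕ → ℚ, Recurrence s c L m}

/-- the joint `k`-error linear complexity of the first `L` digits of the numbers `x i`, `i ∈ T`, in
base `b`: the least order of a common recurrence for the first `L` terms of sequences `s i` of
integers between `-b` and `b` which agree with the digits of the numbers `x i` in all but at most
`k` of the places `1, …, L` -/
noncomputable def jointComplexity (b : ℕ) (T : Finset ℕ) (x : ℕ → ℝ) (k L : ℕ) : ℕ :=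
  sInf {m | ∃ (s : ℕ → ℕ → ℤ) (c : ℕ → ℚ) (E : Finset ℕ), E.card ≤ k ∧ ∀ i ∈ T,
    (∀ l, |s i l| ≤ b) ∧ (∀ l ∈ Icc 1 L, l ∉ E → s i l = digit b (x i) l) ∧
    Recurrence (s i) c L m}

/-- the function `m + C √((m+1) log (m+2))` -/
noncomputable def F (C : ℝ) (m : ℕ) : ℝ :=
  m + C * Real.sqrt (((m : ℝ) + 1) * Real.log ((m : ℝ) + 2))

/-- `ζ(i) = ∑ 1/(n+1)^i` -/
noncomputable def zeta (i : ℕ) : ℝ := ∑' n : ℕ, 1 / ((n : ℝ) + 1) ^ i

/-- the odd numbers `j` with `s + 2 ≤ j < 21 s / 4` -/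
def window (s : ℕ) : Finset ℕ := (range (21 * s)).filter fun j => Odd j ∧ s + 2 ≤ j ∧ 4 * j < 21 * s

/-- the digits of the numbers `ζ(j)`, `j ∈ T`, are complex with exponent `μ` -/
def Complicated (T : Finset ℕ) (μ : ℝ) : Prop :=
  ∀ h : ℕ, ∃ C : ℝ, 0 < C ∧
    -- one recurrence for the digits of all these numbers in base `b`, up to `k` errors
    (∀ b : ℕ, 2 ≤ b → ∀ k L : ℕ, (L : ℝ) ≤ (∑ i ∈ range (k + 1), μ ^ (i + 1)) *
      F C (jointComplexity b T zeta k L)) ∧
    -- each of these numbers in its own base `b j`, by integer digits bounded by `(b j) ^ h`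
    ∀ b : ℕ → ℕ, (∀ j ∈ T, 2 ≤ b j) → ∀ s : ℕ → ℕ → ℤ,
      (∀ j ∈ T, ∀ i, |s j i| ≤ ((b j ^ h : ℕ) : ℤ)) →
      (∀ j ∈ T, ∃ n : ℤ,
        HasSum (fun i : ℕ => (s j (i + 1) : ℝ) / (b j : ℝ) ^ (i + 1)) (zeta j - n)) →
      ∀ L : ℕ → ℕ, ∃ j ∈ T, (L j : ℝ) * Real.log (b j) ≤
        F C (complexity (s j) (L j)) * Real.log (b j) +
          μ * ∑ i ∈ T, F C (complexity (s i) (L i)) * Real.log (b i)

/-- from an inequality for large `q` to all `q` -/
theorem all_q (T : Finset ℕ) (x : ℕ → ℝ) (ν : ℝ) (q0 : ℕ)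
    (h : ∀ q : ℕ, q0 ≤ q → ∀ P : ℕ → ℤ, ∃ j ∈ T, (q : ℝ) ^ (-ν) ≤ |(q : ℝ) * x j - P j|) :
    ∃ c : ℝ, 0 < c ∧ ∀ q : ℕ, 1 ≤ q → ∀ p : ℕ → ℤ, ∃ j ∈ T, c ≤ (q : ℝ) ^ ν * |(q : ℝ) * x j - p j| := by
  classical
  -- multiples of `q` by `q0 + 1`
  refine ⟨((q0 : ℝ) + 1) ^ (-(ν + 1)), by positivity, fun q hq p => ?_⟩
  have hq1 : (1 : ℝ) ≤ q := by exact_mod_cast hq
  have hq0 : (0 : ℝ) < q := by linarith
  have hm : (0 : ℝ) < (q0 : ℝ) + 1 := by positivity
  obtain ⟨j, hj, h1⟩ := h ((q0 + 1) * q) (by nlinarith) (fun j => (q0 + 1) * p j)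
  refine ⟨j, hj, ?_⟩
  push_cast at h1
  have e1 : ((q0 : ℝ) + 1) * q * x j - ((q0 : ℝ) + 1) * p j = ((q0 : ℝ) + 1) * (q * x j - p j) := by ring
  rw [e1, abs_mul, abs_of_pos hm, Real.mul_rpow hm.le hq0.le] at h1
  have h2 : ((q0 : ℝ) + 1) ^ (-(ν + 1)) = ((q0 : ℝ) + 1) ^ (-ν) / ((q0 : ℝ) + 1) := by
    rw [neg_add, Real.rpow_add hm, Real.rpow_neg_one, div_eq_mul_inv]
  rw [h2, div_le_iff₀ hm]
  have h3 : (0 : ℝ) < (q : ℝ) ^ ν := Real.rpow_pos_of_pos hq0 _
  have h4 : (q : ℝ) ^ (-ν) * (q : ℝ) ^ ν = 1 := by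
    rw [← Real.rpow_add hq0, neg_add_cancel, Real.rpow_zero]
  calc ((q0 : ℝ) + 1) ^ (-ν) = (((q0 : ℝ) + 1) ^ (-ν) * (q : ℝ) ^ (-ν)) * (q : ℝ) ^ ν := by
        rw [mul_assoc, h4, mul_one]
    _ ≤ (((q0 : ℝ) + 1) * |(q : ℝ) * x j - p j|) * (q : ℝ) ^ ν := mul_le_mul_of_nonneg_right h1 h3.le
    _ = _ := by ring

/-- **The digits of the odd zeta values in windows.** For every odd `s ≥ 3` the numbers `ζ(j)`, `j` odd,
`s + 2 ≤ j < 21 s / 4`, have digits of large linear complexity, jointly and each in its own base, with the exponent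
`min (64 s) 1038 + 1`, and so have `ζ(7), ζ(9), ζ(11), ζ(13)`, with the exponent `29400`. -/
theorem result :
    (∀ s : ℕ, Odd s → 3 ≤ s → Complicated (window s) (min (64 * (s : ℝ)) 1038 + 1)) ∧
    Complicated {7, 9, 11, 13} 29400 := by
  constructor
  · intro s hs h3 h
    obtain ⟨q0, hq0⟩ := Filter.eventually_atTop.1 (Pool.Agent.TH957.WM.zeta_windows s hs h3)
    have hs3 : (3 : ℝ) ≤ s := by exact_mod_cast h3
    have hmin : (192 : ℝ) ≤ min (64 * (s : ℝ)) 1038 := le_min (by linarith) (by norm_num)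
    obtain ⟨c, hc, hmeas⟩ := all_q (window s) zeta (min (64 * (s : ℝ)) 1038) q0 (by
      intro q hq P
      obtain ⟨j, h1, h2, h4, h5⟩ := hq0 q hq P
      refine ⟨j, ?_, h5⟩
      unfold window
      rw [mem_filter, mem_range]
      exact ⟨by omega, h1, h2, h4⟩)
    have hne : (window s).Nonempty := by
      refine ⟨s + 2, ?_⟩
      unfold window
      rw [mem_filter, mem_range]
      exact ⟨by omega, by
        obtain ⟨k, hk⟩ := hs
        exact ⟨k + 1, by omega⟩, le_rfl, by omega⟩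
    obtain ⟨C, hC, h1, h2⟩ := Pool.Agent.Y928.PL.finite_family (window s) hne zeta
      (min (64 * (s : ℝ)) 1038 + 1) c (by linarith) hc (by
        intro q hq p
        obtain ⟨j, hj, h4⟩ := hmeas q hq p
        refine ⟨j, hj, ?_⟩
        rwa [add_sub_cancel_right]) h
    exact ⟨C, hC, h1, h2⟩
  · intro h
    obtain ⟨c, hc, hmeas⟩ := Pool.Agent.TH957.ZM.main
    obtain ⟨C, hC, h1, h2⟩ := Pool.Agent.Y928.PL.finite_family {7, 9, 11, 13} ⟨7, by decide⟩ zeta 29400 c
      (by norm_num) hc (by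
        intro q hq p
        obtain ⟨j, hj, h1⟩ := hmeas p q hq
        refine ⟨j, by simpa using hj, ?_⟩
        have hq0 : (0 : ℝ) < q := by exact_mod_cast hq
        have e1 : (q : ℝ) ^ ((29400 : ℝ) - 1) = (q : ℝ) ^ 29399 := by
          rw [← Real.rpow_natCast]
          norm_num
        have e2 : |(q : ℝ) * zeta j - p j| = q * |zeta j - (p j : ℝ) / q| := by
          rw [← abs_of_pos hq0, ← abs_mul, abs_of_pos hq0]
          congr 1
          field_simp
        have h2 : c / (q : ℝ) ^ 29400 ≤ |zeta j - (p j : ℝ) / q| := h1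
        rw [div_le_iff₀ (by positivity)] at h2
        rw [e1, e2]
        calc c ≤ |zeta j - (p j : ℝ) / q| * (q : ℝ) ^ 29400 := h2
          _ = (q : ℝ) ^ 29399 * (q * |zeta j - (p j : ℝ) / q|) := by
              rw [show (29400 : ℕ) = 29399 + 1 from rfl, pow_succ]
              ring) h
    exact ⟨C, hC, h1, h2⟩

end Pool.Agent.Results.MP_c2395a_nt.DigitsInWindows
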