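import Mathlib
import Pool.Agent.Q29.DigMany
import Pool.Agent.Results.MP_c2395a_nt.OddZetaTwoThirds

/-!
# The digits of many odd zeta values

The linear complexity of the first `L` digits of a number `x` in base `g` is the least order of a linear
recurrence over `ℚ` which they satisfy. If `x` is rational, it is bounded for `L → ∞`; for random digits
it is about `L / 2`. We show that, at every large scale `L` and in every base, at least about `s^(2/3)` of
the numbers `ζ(j)`, `j ≤ s` odd, have linear complexity at least `c L`, with an explicit `c` of order `1 / s`.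
-/

set_option autoImplicit false

namespace Pool.Agent.Results.MP_c2395a_nt.DigitsOfManyOddZetas

open Finset

/-- the `i`-th digit of `x` after the point in base `g` -/
noncomputable def digit (g : ℕ) (x : ℝ) (i : ℕ) : ℤ := ⌊x * (g : ℝ) ^ i⌋ % (g : ℤ)

/-- the linear complexity of the first `L` digits of `x` in base `g`: the least `m` such that for some
rational numbers `c_0, …, c_(m-1)` one has `s_(i+m) = c_0 s_i + … + c_(m-1) s_(i+m-1)` for
`1 ≤ i ≤ L - m`, where `s_i` is the `i`-th digit -/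
noncomputable def complexity (g : ℕ) (x : ℝ) (L : ℕ) : ℕ :=
  sInf {m | ∃ c : ℕ → ℚ, ∀ i : ℕ, 1 ≤ i → i + m ≤ L →
    (digit g x (i + m) : ℚ) = ∑ j ∈ range m, c j * (digit g x (i + j) : ℚ)}

/-- **The digits of many odd zeta values.** Let `K, S ≥ 1` and
`2^(132 S) (b + 1)² K³ log (K + 1) ≤ s²`. For all bases `g ≥ 2` and all `L ≥ L₀` (where `L₀` depends only on
`b, K, s, S`) at least `K` of the odd `j` with `b < j ≤ s` are such that the linear complexity of the first `L`
digits of `ζ(j) = ∑ 1/(n+1)^j` in base `g` is at least `L / ((1 + 1/S) (s + 1) / 2 + 2)`. -/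
theorem result (b K s S : ℕ) (hK : 1 ≤ K) (hS : 1 ≤ S)
    (h : (2 : ℝ) ^ (132 * S) * ((b : ℝ) + 1) ^ 2 * (K : ℝ) ^ 3 * Real.log (K + 1) ≤ (s : ℝ) ^ 2) :
    ∃ L₀ : ℕ, ∀ g : ℕ, 2 ≤ g → ∀ L : ℕ, L₀ ≤ L →
      K ≤ Set.ncard {j : ℕ | b < j ∧ j ≤ s ∧ Odd j ∧
        (L : ℝ) ≤ ((1 + 1 / (S : ℝ)) * (((s : ℝ) + 1) / 2) + 2) *
          complexity g (∑' n : ℕ, 1 / ((n : ℝ) + 1) ^ j) L} := by
  classical
  obtain ⟨-, q0, hq0⟩ := Pool.Agent.Results.MP_c2395a_nt.OddZetaTwoThirds.result b K s S hK hS h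
  have hS0 : (0 : ℝ) < S := by exact_mod_cast hS
  set N : Finset ℕ := (Finset.Ioc b s).filter Odd with hN
  set x : ℕ → ℝ := fun j => ∑' n : ℕ, 1 / ((n : ℝ) + 1) ^ j with hx
  obtain ⟨L₀, hL₀⟩ := Pool.Agent.Q29.Dig.many N K hK x (1 + 1 / (S : ℝ)) (by
    have : 0 < 1 / (S : ℝ) := by positivity
    linarith) ⟨q0, fun q hq => by
      refine (hq0 q hq).trans (le_of_eq ?_)
      congr 1
      ext j
      simp only [Set.mem_setOf_eq, hN, Finset.mem_filter, Finset.mem_Ioc, hx, add_sub_cancel_left]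
      tauto⟩
  refine ⟨L₀, fun g hg L hL => (hL₀ g hg L hL).trans ?_⟩
  refine Set.ncard_le_ncard ?_ ((Set.finite_Iic s).subset fun j hj => hj.2.1)
  rintro j ⟨hj, hj2⟩
  rw [hN, Finset.mem_filter, Finset.mem_Ioc] at hj
  refine ⟨hj.1.1, hj.1.2, hj.2, hj2.trans ?_⟩
  have hcard : (N.card : ℝ) ≤ ((s : ℝ) + 1) / 2 := by
    have h1 : N.card ≤ (Finset.range ((s + 1) / 2)).card := by
      refine Finset.card_le_card_of_injOn (fun j => (j - 1) / 2) (fun j hj => ?_) ?_
      · rw [hN, Finset.mem_coe, Finset.mem_filter, Finset.mem_Ioc] at hj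
        rw [Finset.mem_coe, Finset.mem_range]
        obtain ⟨k, hk⟩ := hj.2
        show (j - 1) / 2 < (s + 1) / 2
        omega
      · intro i hi j hj hij
        rw [hN, Finset.mem_coe, Finset.mem_filter, Finset.mem_Ioc] at hi hj
        obtain ⟨k, hk⟩ := hi.2
        obtain ⟨l, hl⟩ := hj.2
        change (i - 1) / 2 = (j - 1) / 2 at hij
        omega
    rw [Finset.card_range] at h1
    have h2 : 2 * N.card ≤ s + 1 := by omega
    have h3 : (2 : ℝ) * N.card ≤ s + 1 := by exact_mod_cast h2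
    linarith
  have h4 : 0 ≤ 1 / (S : ℝ) := by positivity
  refine mul_le_mul ?_ (le_of_eq rfl) (Nat.cast_nonneg _) (by positivity)
  gcongr

end Pool.Agent.Results.MP_c2395a_nt.DigitsOfManyOddZetas
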