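import Mathlib
import Pool.Agent.Q29.WinDist

/-!
# Near relations between odd zeta values in a window and arbitrary numbers

Let `ζ(J_1), …, ζ(J_p)` contain all but fewer than `K` of the numbers `ζ(j)`, `b < j ≤ s` odd, where
`2 ^ (132 (D + 1)) (b + 1) ^ 2 K ^ 3 log (K + 1) ≤ s ^ 2`; for instance (`b = 2`, `K = 1`) all of `ζ(3), ζ(5), …, ζ(s)`, where
`D + 1 = [(log s / log 2 - 1) / 66]`, up to constants. For all real numbers `t_1, …, t_r` (for instance powers of one of the
zeta values, or monomials in `π` and zeta values) the integer vectors `(a, e)` of norm at most `X` on which the form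
`a_0 + a_1 ζ(J_1) + … + a_p ζ(J_p) + e_1 t_1 + … + e_r t_r` is smaller than `c X ^ (-E m)`, `E = (D + 1) (D + 2) + 1`,
`m = r + p - D`, span a space of codimension at least `D + 2`, at every scale `X` and with `c` independent of `t_1, …, t_r`.

If all the numbers `ζ(J_i)` were rational, or elements of one vector space of dimension `D + 1` over the rational numbers
which contains `1`, then with a basis `1, t_1, …, t_D` of this space and `r = D` the exact relations would span a space of
codimension `D + 1`; so this is a quantitative form, at each scale and uniform in the space, of the theorem on odd zeta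
values outside subspaces of the starting files (`Pool/Agent/Results/MP_a89d6d_nt/OutsideSubspacesTwoThirds.lean`).

The proof: Dirichlet's theorem and the simultaneous approximation of odd zeta values (`Pool/Agent/Y926/TW/`) give a
lower bound for the distance to all rational subspaces of dimension `D + 1` (`Pool/Agent/Q29/WinDist.lean`), then an
elimination in one step (`Pool/Agent/Q29/SpaceRank.lean`).
-/

set_option autoImplicit false

namespace Pool.Agent.Results.MP_c2395a_nt.NearRelationsInWindows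

open Pool.Agent.Q29.SpaceRank

/-- `ζ(j)` -/
noncomputable def zeta (j : ℕ) : ℝ := ∑' n : ℕ, 1 / ((n : ℝ) + 1) ^ j

/-- the value of the form `a_0 + a_1 ζ(J_1) + … + a_p ζ(J_p) + e_1 t_1 + … + e_r t_r` for `v = (a, e)` -/
noncomputable def form {p r : ℕ} (J : Fin p → ℕ) (t : Fin r → ℝ) (v : (Fin (p + 1) → ℤ) × (Fin r → ℤ)) : ℝ :=
  v.1 0 + ∑ i : Fin p, v.1 i.succ * zeta (J i) + ∑ j, (v.2 j : ℝ) * t j

/-- **Near relations between odd zeta values in a window and arbitrary numbers.** -/
theorem result (b K s D p r : ℕ) (hK : 1 ≤ K)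
    (hs : (2 : ℝ) ^ (132 * (D + 1)) * ((b : ℝ) + 1) ^ 2 * (K : ℝ) ^ 3 * Real.log (K + 1) ≤ (s : ℝ) ^ 2)
    (J : Fin p → ℕ) (hJ : Set.ncard {j : ℕ | b < j ∧ j ≤ s ∧ Odd j ∧ ∀ i, J i ≠ j} < K) :
    D < p ∧ ∃ c : ℝ, 0 < c ∧ ∀ (t : Fin r → ℝ) (X : ℝ), 1 ≤ X → ∀ m : ℕ, m + D = r + p →
      (∀ v : Fin m → (Fin (p + 1) → ℤ) × (Fin r → ℤ), LinearIndependent ℤ v → (∀ k, ‖v k‖ ≤ X) →
        ∃ k, c / X ^ (((D + 1) * (D + 2) + 1) * m) ≤ |form J t (v k)|) ∧
      Module.finrank ℚ (Submodule.span ℚ ((fun (v : (Fin (p + 1) → ℤ) × (Fin r → ℤ)) =>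
        (((fun i => (v.1 i : ℚ)), (fun j => (v.2 j : ℚ))) : (Fin (p + 1) → ℚ) × (Fin r → ℚ))) ''
          {v | ‖v‖ ≤ X ∧ |form J t v| < c / X ^ (((D + 1) * (D + 2) + 1) * m)})) + (D + 2) ≤ p + 1 + r := by
  obtain ⟨c, hc, h⟩ := window_space_dist hK hs J hJ
  obtain ⟨hD, c', hc', h'⟩ := near_rank _ D _ c hc h r
  refine ⟨hD, c', hc', fun t X hX m hm => ?_⟩
  obtain ⟨h1, h2⟩ := h' t X hX
  refine ⟨fun v hv hvX => h1 m hm v hv hvX, ?_⟩
  have h3 := h2 m hm
  have h4 : ∀ x : ℕ, x < m → x + (D + 2) ≤ p + 1 + r := fun x hx => by omega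
  exact h4 _ h3

end Pool.Agent.Results.MP_c2395a_nt.NearRelationsInWindows
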